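import Pool.Agent.helper4.GA.Spec

set_option autoImplicit false

open Finset
open Pool.Agent.helper32.Cant

namespace Pool.Agent.GA

/-- transfer recursion -/
noncomputable def CHN_Z (G : ℕ) : ℕ → (ℕ → Fin G → Fin G → ℝ) → Fin G → ℝ
  | 0, _, _ => 1
  | T + 1, φ, i => ∑ j, φ 0 i j * CHN_Z G T (fun t => φ (t + 1)) j

theorem CHN_sum (G : ℕ) (T : ℕ) : ∀ (φ : ℕ → Fin G → Fin G → ℝ) (F : Fin G → ℝ),
    ∑ o : Fin (T + 1) → Fin G, F (o 0) * ∏ t : Fin T, φ t (o t.castSucc) (o t.succ) =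
      ∑ i, F i * CHN_Z G T φ i := by
  induction T with
  | zero =>
    intro φ F
    rw [← (Fin.consEquiv (fun _ : Fin 1 => Fin G)).sum_comp, Fintype.sum_prod_type]
    refine Finset.sum_congr rfl fun i _ => ?_
    simp [CHN_Z, Fin.consEquiv]
  | succ T ih =>
    intro φ F
    rw [← (Fin.consEquiv (fun _ : Fin (T + 2) => Fin G)).sum_comp, Fintype.sum_prod_type]
    refine Finset.sum_congr rfl fun i _ => ?_
    have h := ih (fun t => φ (t + 1)) (φ 0 i)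
    show _ = F i * ∑ j, φ 0 i j * CHN_Z G T (fun t => φ (t + 1)) j
    rw [← h, Finset.mul_sum]
    refine Finset.sum_congr rfl fun o _ => ?_
    rw [Fin.prod_univ_succ]
    rfl

theorem CHN_bound (G : ℕ) (T : ℕ) : ∀ (φ : ℕ → Fin G → Fin G → ℝ),
    ∑ i, CHN_Z G T φ i ^ 2 ≤ G * ∏ t ∈ range T, ∑ i, ∑ j, φ t i j ^ 2 := by
  induction T with
  | zero =>
    intro φ
    simp [CHN_Z]
  | succ T ih =>
    intro φ
    have h := ih (fun t => φ (t + 1))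
    rw [Finset.prod_range_succ']
    have h1 : ∀ i, CHN_Z G (T + 1) φ i ^ 2 ≤
        (∑ j, φ 0 i j ^ 2) * ∑ j, CHN_Z G T (fun t => φ (t + 1)) j ^ 2 := fun i =>
      Finset.sum_mul_sq_le_sq_mul_sq _ _ _
    calc ∑ i, CHN_Z G (T + 1) φ i ^ 2
        ≤ ∑ i, (∑ j, φ 0 i j ^ 2) * ∑ j, CHN_Z G T (fun t => φ (t + 1)) j ^ 2 :=
          Finset.sum_le_sum fun i _ => h1 i
      _ = (∑ i, ∑ j, φ 0 i j ^ 2) * ∑ j, CHN_Z G T (fun t => φ (t + 1)) j ^ 2 := by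
          rw [Finset.sum_mul]
      _ ≤ (∑ i, ∑ j, φ 0 i j ^ 2) * (G * ∏ t ∈ range T, ∑ i, ∑ j, φ (t + 1) i j ^ 2) :=
          mul_le_mul_of_nonneg_left h (Finset.sum_nonneg fun i _ => Finset.sum_nonneg fun j _ => sq_nonneg _)
      _ = G * ((∏ t ∈ range T, ∑ i, ∑ j, φ (t + 1) i j ^ 2) * ∑ i, ∑ j, φ 0 i j ^ 2) := by ring

theorem CHN : CHN_stmt := by
  intro G T φ _
  have h := CHN_sum G T φ (fun _ => 1)
  simp only [one_mul] at h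
  rw [h]
  have hP : (∏ t ∈ range T, √(∑ i, ∑ j, φ t i j ^ 2)) ^ 2 = ∏ t ∈ range T, ∑ i, ∑ j, φ t i j ^ 2 := by
    rw [← Finset.prod_pow]
    refine Finset.prod_congr rfl fun t _ => ?_
    exact Real.sq_sqrt (Finset.sum_nonneg fun i _ => Finset.sum_nonneg fun j _ => sq_nonneg _)
  have hP0 : 0 ≤ ∏ t ∈ range T, √(∑ i, ∑ j, φ t i j ^ 2) := Finset.prod_nonneg fun t _ => Real.sqrt_nonneg _
  have h1 : (∑ i, CHN_Z G T φ i) ^ 2 ≤ ((G : ℝ) * ∏ t ∈ range T, √(∑ i, ∑ j, φ t i j ^ 2)) ^ 2 := by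
    have h2 : (∑ i, CHN_Z G T φ i) ^ 2 ≤ (G : ℝ) * ∑ i, CHN_Z G T φ i ^ 2 := by
      have := sq_sum_le_card_mul_sum_sq (s := (Finset.univ : Finset (Fin G))) (f := fun i => CHN_Z G T φ i)
      rwa [Finset.card_univ, Fintype.card_fin] at this
    calc (∑ i, CHN_Z G T φ i) ^ 2 ≤ (G : ℝ) * ∑ i, CHN_Z G T φ i ^ 2 := h2
      _ ≤ (G : ℝ) * (G * ∏ t ∈ range T, ∑ i, ∑ j, φ t i j ^ 2) :=
          mul_le_mul_of_nonneg_left (CHN_bound G T φ) (Nat.cast_nonneg _)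
      _ = ((G : ℝ) * ∏ t ∈ range T, √(∑ i, ∑ j, φ t i j ^ 2)) ^ 2 := by
          rw [mul_pow, hP]
          ring
  exact le_trans (le_abs_self _) (abs_le_of_sq_le_sq h1 (mul_nonneg (Nat.cast_nonneg _) hP0))

end Pool.Agent.GA
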