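import Pool.Agent.helper4.GA.Spec

set_option autoImplicit false

open Finset
open Pool.Agent.helper32.Cant

namespace Pool.Agent.GA

theorem POT_ph (ζ : ℝ) (d r : ℕ) : ‖ph ζ d r‖ = 1 := by
  unfold ph
  have e : (2 * Real.pi * Complex.I * (2 * ζ * r / 3 ^ d) : ℂ) =
      ((2 * Real.pi * (2 * ζ * r / 3 ^ d) : ℝ) : ℂ) * Complex.I := by
    push_cast
    ring
  rw [e, Complex.norm_exp_ofReal_mul_I]

/-- the functional -/
noncomputable def POT_F (s : Finset ℕ) (e : ℕ → ℂ) (h : ℕ → ℝ) : ℝ :=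
  (∑ r ∈ s, h r + ‖∑ r ∈ s, ((h r : ℝ) : ℂ) * e r‖) / 2

theorem POT_norm_le (s : Finset ℕ) (e : ℕ → ℂ) (he : ∀ r, ‖e r‖ = 1) (h : ℕ → ℝ) (h0 : ∀ r, 0 ≤ h r) :
    ‖∑ r ∈ s, ((h r : ℝ) : ℂ) * e r‖ ≤ ∑ r ∈ s, h r := by
  refine le_trans (norm_sum_le _ _) (Finset.sum_le_sum fun r _ => ?_)
  rw [norm_mul, he r, mul_one, Complex.norm_real, Real.norm_of_nonneg (h0 r)]

theorem POT_F_le (s : Finset ℕ) (e : ℕ → ℂ) (he : ∀ r, ‖e r‖ = 1) (h : ℕ → ℝ) (h0 : ∀ r, 0 ≤ h r) :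
    POT_F s e h ≤ ∑ r ∈ s, h r := by
  unfold POT_F
  have := POT_norm_le s e he h h0
  linarith

theorem POT_F_mono (s : Finset ℕ) (e : ℕ → ℂ) (he : ∀ r, ‖e r‖ = 1) (h h' : ℕ → ℝ)
    (hh : ∀ r, h r ≤ h' r) : POT_F s e h ≤ POT_F s e h' := by
  unfold POT_F
  have h1 := POT_norm_le s e he (fun r => h' r - h r) (fun r => sub_nonneg.2 (hh r))
  have h2 : ∑ r ∈ s, ((h r : ℝ) : ℂ) * e r = ∑ r ∈ s, ((h' r : ℝ) : ℂ) * e r -
      ∑ r ∈ s, ((h' r - h r : ℝ) : ℂ) * e r := by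
    rw [← Finset.sum_sub_distrib]
    refine Finset.sum_congr rfl fun r _ => ?_
    push_cast
    ring
  have h3 := norm_sub_le (∑ r ∈ s, ((h' r : ℝ) : ℂ) * e r) (∑ r ∈ s, ((h' r - h r : ℝ) : ℂ) * e r)
  rw [← h2] at h3
  rw [Finset.sum_sub_distrib] at h1
  linarith

theorem POT_F_smul (s : Finset ℕ) (e : ℕ → ℂ) (h : ℕ → ℝ) (t : ℝ) (ht : 0 ≤ t) :
    POT_F s e (fun r => t * h r) = t * POT_F s e h := by
  unfold POT_F
  have h1 : ∑ r ∈ s, ((t * h r : ℝ) : ℂ) * e r = (t : ℂ) * ∑ r ∈ s, ((h r : ℝ) : ℂ) * e r := by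
    rw [Finset.mul_sum]
    refine Finset.sum_congr rfl fun r _ => ?_
    push_cast
    ring
  rw [h1, norm_mul, Complex.norm_real, Real.norm_of_nonneg ht, ← Finset.mul_sum]
  ring

theorem POT_parts {X : Type} (s : Finset ℕ) (Y : Finset X) (f : X → ℕ) (w : X → ℝ) (hw : ∀ x ∈ Y, 0 ≤ w x) :
    ∑ r ∈ s, ∑ x ∈ Y with f x = r, w x ≤ ∑ x ∈ Y, w x := by
  classical
  have h1 : ∑ r ∈ s, ∑ x ∈ Y with f x = r, w x = ∑ x ∈ Y with f x ∈ s, w x := by
    rw [← Finset.sum_fiberwise_of_maps_to (s := {x ∈ Y | f x ∈ s}) (t := s) (g := f)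
      (fun x hx => (Finset.mem_filter.1 hx).2)]
    refine Finset.sum_congr rfl fun r hr => Finset.sum_congr ?_ fun x _ => rfl
    ext x
    simp only [Finset.mem_filter]
    constructor
    · rintro ⟨a, b⟩
      exact ⟨⟨a, b ▸ hr⟩, b⟩
    · rintro ⟨⟨a, _⟩, b⟩
      exact ⟨a, b⟩
  rw [h1]
  exact Finset.sum_le_sum_of_subset_of_nonneg (Finset.filter_subset _ _) fun x hx _ => hw x hx

theorem POT : POT_stmt := by
  intro X n sh ζ η R hη0 hη1 L
  have base : ∀ (Y : Finset X) (w : X → ℝ), (∀ x ∈ Y, 0 ≤ w x) →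
      η * ∑ x ∈ Y, w x ≤ ∑ x ∈ Y, w x ∧ ∑ x ∈ Y, w x ≤ ∑ x ∈ Y, w x ∧
      (∀ w' : X → ℝ, (∀ x ∈ Y, w x ≤ w' x) → ∑ x ∈ Y, w x ≤ ∑ x ∈ Y, w' x) ∧
      (∀ t : ℝ, 0 ≤ t → ∑ x ∈ Y, t * w x = t * ∑ x ∈ Y, w x) := by
    intro Y w hw
    have h0 : 0 ≤ ∑ x ∈ Y, w x := Finset.sum_nonneg hw
    refine ⟨by nlinarith, le_rfl, fun w' h => Finset.sum_le_sum h, fun t _ => by rw [Finset.mul_sum]⟩
  induction L with
  | nil =>
    intro Y w hw
    simpa only [pot] using base Y w hw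
  | cons a L ih =>
    cases L with
    | nil =>
      intro Y w hw
      simpa only [pot] using base Y w hw
    | cons b l =>
      intro Y w hw
      -- the children
      let P : (X → ℝ) → ℕ → ℝ := fun w r => pot n sh ζ η R w (b :: l) {x ∈ Y | rc n sh b (R x) = r}
      have hpot : ∀ w : X → ℝ, pot n sh ζ η R w (a :: b :: l) Y =
          max (POT_F (range (3 ^ (n + 1))) (ph ζ (b - a)) (P w)) (η * ∑ x ∈ Y, w x) := by
        intro w
        rw [pot]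
        rfl
      have hph : ∀ r, ‖ph ζ (b - a) r‖ = 1 := fun r => POT_ph ζ (b - a) r
      have hmem : ∀ (r : ℕ) (w : X → ℝ), (∀ x ∈ Y, 0 ≤ w x) →
          ∀ x ∈ ({x ∈ Y | rc n sh b (R x) = r} : Finset X), 0 ≤ w x :=
        fun r w hw x hx => hw x (Finset.mem_filter.1 hx).1
      have hP0 : ∀ w : X → ℝ, (∀ x ∈ Y, 0 ≤ w x) → ∀ r, 0 ≤ P w r := by
        intro w hw r
        have := (ih {x ∈ Y | rc n sh b (R x) = r} w (hmem r w hw)).1
        exact le_trans (mul_nonneg hη0 (Finset.sum_nonneg (hmem r w hw))) this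
      have hPle : ∀ r, P w r ≤ ∑ x ∈ Y with rc n sh b (R x) = r, w x := fun r =>
        (ih {x ∈ Y | rc n sh b (R x) = r} w (hmem r w hw)).2.1
      have h0 : 0 ≤ ∑ x ∈ Y, w x := Finset.sum_nonneg hw
      refine ⟨?_, ?_, ?_, ?_⟩
      · rw [hpot]
        exact le_max_right _ _
      · rw [hpot]
        refine max_le ?_ (by nlinarith)
        refine le_trans (POT_F_le _ _ hph _ (hP0 w hw)) ?_
        exact le_trans (Finset.sum_le_sum fun r _ => hPle r) (POT_parts _ Y (fun x => rc n sh b (R x)) w hw)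
      · intro w' hw'
        rw [hpot, hpot]
        refine max_le_max ?_ (mul_le_mul_of_nonneg_left (Finset.sum_le_sum hw') hη0)
        refine POT_F_mono _ _ hph _ _ fun r => ?_
        exact (ih {x ∈ Y | rc n sh b (R x) = r} w (hmem r w hw)).2.2.1 w'
          fun x hx => hw' x (Finset.mem_filter.1 hx).1
      · intro t ht
        rw [hpot, hpot]
        have e1 : P (fun x => t * w x) = fun r => t * P w r := by
          funext r
          exact (ih {x ∈ Y | rc n sh b (R x) = r} w (hmem r w hw)).2.2.2 t ht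
        rw [e1, POT_F_smul _ _ _ t ht, mul_max_of_nonneg _ _ ht, ← Finset.mul_sum]
        congr 1
        ring

end Pool.Agent.GA
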