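import Pool.Agent.helper4.GA.Spec

set_option autoImplicit false

open Finset
open Pool.Agent.helper32.Cant

namespace Pool.Agent.GA

/-- the event of level `i` at the point `t` -/
def SHF_g (n i t : ℕ) : Prop := t / 3 ^ (n - i - 2) % 9 ≠ 0 ∧ t / 3 ^ (n - i - 2) % 9 ≠ 8

/-- the exponential -/
noncomputable def SHF_e (n : ℕ) (ω : ℕ → ℝ) (L : List ℕ) (t : ℕ) : ℝ :=
  Real.exp (-(L.map (fun i => ind (SHF_g n i t) * ω i)).sum)

/-- sums over blocks -/
theorem SHF_blocks (F : ℕ → ℝ) (b : ℕ) : ∀ a : ℕ,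
    ∑ t ∈ range (a * b), F t = ∑ i ∈ range a, ∑ j ∈ range b, F (i * b + j) := by
  intro a
  induction a with
  | zero => simp
  | succ a ih => rw [Nat.succ_mul, Finset.sum_range_add, ih, Finset.sum_range_succ]

/-- shift of a periodic function -/
theorem SHF_shift (F : ℕ → ℝ) (N : ℕ) (hF : ∀ t, F (t + N) = F t) : ∀ z : ℕ,
    ∑ s ∈ range N, F (z + s) = ∑ s ∈ range N, F s := by
  intro z
  induction z with
  | zero => simp
  | succ z ih =>
    have h1 := Finset.sum_range_succ (fun s => F (z + s)) N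
    have h2 := Finset.sum_range_succ' (fun s => F (z + s)) N
    have h3 : ∑ s ∈ range N, F (z + 1 + s) = ∑ s ∈ range N, F (z + (s + 1)) :=
      Finset.sum_congr rfl fun s _ => by rw [Nat.add_assoc, Nat.add_comm 1 s]
    rw [h3]
    have h4 : F (z + N) = F (z + 0) := by rw [hF, Nat.add_zero]
    linarith

theorem SHF_num (w : ℝ) (h0 : 0 ≤ w) (h1 : w ≤ 1) : 2 + 7 * Real.exp (-w) ≤ 9 * Real.exp (-(w / 3)) := by
  set y := Real.exp (-(w / 3)) with hy
  have e1 : Real.exp (-w) = y ^ 3 := by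
    rw [hy, ← Real.exp_nat_mul]
    congr 1
    push_cast
    ring
  rw [e1]
  have hy1 : y ≤ 1 := Real.exp_le_one_iff.2 (by linarith)
  have hy2 : 2 / 3 ≤ y := by
    have := Real.add_one_le_exp (-(w / 3))
    linarith
  nlinarith [mul_nonneg (sub_nonneg.2 hy1) (sub_nonneg.2 hy2), sq_nonneg y]

/-- the sum over one digit -/
theorem SHF_digit (w : ℝ) (h0 : 0 ≤ w) (h1 : w ≤ 1) :
    ∑ d ∈ range 9, Real.exp (-(ind (d ≠ 0 ∧ d ≠ 8) * w)) ≤ 9 * Real.exp (-(w / 3)) := by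
  refine le_trans (le_of_eq ?_) (SHF_num w h0 h1)
  simp only [Finset.sum_range_succ, Finset.sum_range_zero, ind]
  norm_num
  ring

/-- the sum over many digits -/
theorem SHF_digits (w : ℝ) (h0 : 0 ≤ w) (h1 : w ≤ 1) (r : ℕ) :
    ∑ d ∈ range (3 ^ (r + 2)), Real.exp (-(ind (d % 9 ≠ 0 ∧ d % 9 ≠ 8) * w)) ≤
      3 ^ (r + 2) * Real.exp (-(w / 3)) := by
  have e : 3 ^ (r + 2) = 3 ^ r * 9 := by rw [pow_add]; norm_num
  rw [e, SHF_blocks]
  have h : ∀ i ∈ range (3 ^ r), ∑ j ∈ range 9,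
      Real.exp (-(ind ((i * 9 + j) % 9 ≠ 0 ∧ (i * 9 + j) % 9 ≠ 8) * w)) ≤ 9 * Real.exp (-(w / 3)) := by
    intro i _
    refine le_trans (le_of_eq ?_) (SHF_digit w h0 h1)
    refine Finset.sum_congr rfl fun j hj => ?_
    have hj9 := Finset.mem_range.1 hj
    have : (i * 9 + j) % 9 = j := by omega
    rw [this]
  refine le_trans (Finset.sum_le_sum h) ?_
  rw [Finset.sum_const, Finset.card_range, nsmul_eq_mul]
  have e2 : (3 : ℝ) ^ (r + 2) = 3 ^ r * 9 := by rw [pow_add]; norm_num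
  rw [e2]
  push_cast
  apply le_of_eq
  ring

/-- later levels do not see the leading digits -/
theorem SHF_later (n : ℕ) (ω : ℕ → ℝ) (L : List ℕ) (m : ℕ) (hL : ∀ i ∈ L, n - i ≤ m ∧ i + 2 ≤ n) (c t : ℕ) :
    SHF_e n ω L (c * 3 ^ m + t) = SHF_e n ω L t := by
  unfold SHF_e
  congr 2
  refine congrArg List.sum (List.map_congr_left fun i hi => ?_)
  obtain ⟨h1, h2⟩ := hL i hi
  have e : (c * 3 ^ m + t) / 3 ^ (n - i - 2) % 9 = t / 3 ^ (n - i - 2) % 9 := by
    obtain ⟨k, hk⟩ := Nat.exists_eq_add_of_le h1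
    have e1 : 3 ^ m = 3 ^ (n - i - 2) * (9 * 3 ^ k) := by
      rw [hk]
      have : n - i + k = (n - i - 2) + (2 + k) := by omega
      rw [this, pow_add, pow_add]
      norm_num
    have e2 : c * 3 ^ m + t = t + 3 ^ (n - i - 2) * (c * (9 * 3 ^ k)) := by
      rw [e1]
      ring
    rw [e2, Nat.add_mul_div_left _ _ (by positivity)]
    have e3 : c * (9 * 3 ^ k) = 9 * (c * 3 ^ k) := by ring
    rw [e3, Nat.add_mul_mod_self_left]
  unfold SHF_g
  rw [e]

theorem SHF_main (n : ℕ) (ω : ℕ → ℝ) (hω : ∀ i, 0 ≤ ω i ∧ ω i ≤ 1) (L : List ℕ) :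
    ∀ K : ℕ, List.Pairwise (fun i j => i + 2 ≤ j) L → (∀ i ∈ L, n - i ≤ K ∧ i + 2 ≤ n) →
    ∑ t ∈ range (3 ^ K), SHF_e n ω L t ≤ 3 ^ K * Real.exp (-((L.map ω).sum / 3)) := by
  induction L with
  | nil =>
    intro K _ _
    simp [SHF_e]
  | cons i L ih =>
    intro K hch hmem
    obtain ⟨hK, hin⟩ := hmem i (by simp)
    rw [List.pairwise_cons] at hch
    obtain ⟨hi, hch'⟩ := hch
    set m := n - i - 2 with hm
    obtain ⟨r, hr⟩ := Nat.exists_eq_add_of_le hK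
    have hKm : K = (r + 2) + m := by omega
    have hL' : ∀ j ∈ L, n - j ≤ m ∧ j + 2 ≤ n := by
      intro j hj
      have h1 := hi j hj
      have h2 := hmem j (List.mem_cons_of_mem i hj)
      exact ⟨by omega, h2.2⟩
    have hIH := ih m hch' hL'
    have e1 : (3 : ℕ) ^ K = 3 ^ (r + 2) * 3 ^ m := by rw [hKm, pow_add]
    rw [e1, SHF_blocks]
    have hterm : ∀ c ∈ range (3 ^ (r + 2)), ∑ j ∈ range (3 ^ m), SHF_e n ω (i :: L) (c * 3 ^ m + j) =
        Real.exp (-(ind (c % 9 ≠ 0 ∧ c % 9 ≠ 8) * ω i)) * ∑ j ∈ range (3 ^ m), SHF_e n ω L j := by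
      intro c _
      rw [Finset.mul_sum]
      refine Finset.sum_congr rfl fun j hj => ?_
      have hj' := Finset.mem_range.1 hj
      have h1 := SHF_later n ω L m hL' c j
      have h2 : SHF_e n ω (i :: L) (c * 3 ^ m + j) =
          Real.exp (-(ind (SHF_g n i (c * 3 ^ m + j)) * ω i)) * SHF_e n ω L (c * 3 ^ m + j) := by
        unfold SHF_e
        rw [← Real.exp_add, List.map_cons, List.sum_cons, neg_add]
      have h3 : (c * 3 ^ m + j) / 3 ^ m = c := by
        rw [Nat.add_comm, Nat.add_mul_div_right _ _ (by positivity), Nat.div_eq_of_lt hj', Nat.zero_add]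
      have h4 : SHF_g n i (c * 3 ^ m + j) = (c % 9 ≠ 0 ∧ c % 9 ≠ 8) := by
        unfold SHF_g
        rw [← hm, h3]
      rw [h2, h1, h4]
    rw [Finset.sum_congr rfl hterm, ← Finset.sum_mul]
    have hd := SHF_digits (ω i) (hω i).1 (hω i).2 r
    have e2 : (3 : ℝ) ^ K * Real.exp (-(((i :: L).map ω).sum / 3)) =
        (3 ^ (r + 2) * Real.exp (-(ω i / 3))) * (3 ^ m * Real.exp (-((L.map ω).sum / 3))) := by
      rw [List.map_cons, List.sum_cons, add_div, neg_add, Real.exp_add, hKm, pow_add]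
      ring
    rw [e2]
    refine mul_le_mul hd hIH (Finset.sum_nonneg fun j _ => (Real.exp_pos _).le) ?_
    positivity

theorem SHF : SHF_stmt := by
  intro n z ω L hω hch hL
  haveI : Trans (fun i j : ℕ => i + 2 ≤ j) (fun i j : ℕ => i + 2 ≤ j) (fun i j : ℕ => i + 2 ≤ j) :=
    ⟨fun h1 h2 => by omega⟩
  have hp : List.Pairwise (fun i j => i + 2 ≤ j) L := List.isChain_iff_pairwise.1 hch
  have hmem : ∀ i ∈ L, n - i ≤ n ∧ i + 2 ≤ n := fun i hi => ⟨by omega, hL i hi⟩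
  have h := SHF_main n ω hω L n hp hmem
  have hper : ∀ t, SHF_e n ω L (t + 3 ^ n) = SHF_e n ω L t := by
    intro t
    have := SHF_later n ω L n hmem 1 t
    rw [one_mul, Nat.add_comm] at this
    exact this
  have hsh := SHF_shift (SHF_e n ω L) (3 ^ n) hper z
  rw [← hsh] at h
  exact h

end Pool.Agent.GA
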